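import Mathlib.LinearAlgebra.FreeModule.PID
import Mathlib.Algebra.BigOperators.Field
import Mathlib.Topology.Sheaves.Presheaf
import Mathlib.Tactic.Monotonicity.Lemmas
import Mathlib.RingTheory.Flat.TorsionFree
import Mathlib.Algebra.Order.Ring.Star
import Mathlib.Algebra.Order.Star.Real
import Mathlib.Analysis.Complex.ExponentialBounds
import Mathlib.FieldTheory.Finite.Extension
import Mathlib.RingTheory.PiTensorProduct
import Mathlib.RingTheory.SimpleRing.Principal
import Mathlib.RingTheory.Henselian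
import Mathlib.RingTheory.RegularLocalRing.Defs
import Mathlib.Tactic.Algebra.Basic

-- ======== part 0: formerly Pool.Agent.MP_1dbd31_co.h58.Conc
section MrgPart0

/-! A Bernstein bound in a finite product space and the union bound. -/

open Finset

namespace Pool.Agent.MP_1dbd31_co.h58

variable {κ Ω ι : Type} [Fintype κ] [DecidableEq κ] [Fintype Ω]

theorem sum_update (k : κ) (g : (κ → Ω) → ℝ) :
    ∑ ω : κ → Ω, ∑ a : Ω, g (Function.update ω k a) = Fintype.card Ω * ∑ ω, g ω := by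
  classical
  let e : (κ → Ω) × Ω ≃ (κ → Ω) × Ω := Function.Involutive.toPerm
    (fun p => (Function.update p.1 k p.2, p.1 k)) (by intro p; simp)
  have h := e.sum_comp (fun p => g p.1)
  simp only [Fintype.sum_prod_type, sum_const, card_univ, nsmul_eq_mul] at h
  rw [mul_sum, ← h]
  rfl

theorem mgf [Nonempty Ω] (u : Ω → ℝ) (v l : ℝ) (hl0 : 0 ≤ l) (hl1 : l ≤ 1)
    (hu0 : ∑ a, u a = 0) (hu1 : ∀ a, |u a| ≤ 1) (hv : ∑ a, u a ^ 2 ≤ v * Fintype.card Ω)
    (e : ι → κ) (c : ι → (κ → Ω) → ℝ) (hc1 : ∀ i ω, |c i ω| ≤ 1) (s : Finset ι)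
    (he : Set.InjOn e s)
    (hc : ∀ i ∈ s, ∀ j ∈ s, ∀ ω a, c i (Function.update ω (e j) a) = c i ω) :
    ∑ ω : κ → Ω, Real.exp (l * ∑ i ∈ s, c i ω * u (ω (e i))) ≤
      Fintype.card (κ → Ω) * Real.exp (l ^ 2 * v * s.card) := by
  classical
  induction s using Finset.induction_on with
  | empty => simp
  | insert i s hi ih =>
    have ih' := ih (he.mono (by simp)) fun a ha b hb => hc a (by simp [ha]) b (by simp [hb])
    have hN : (0 : ℝ) < Fintype.card Ω := by exact_mod_cast Fintype.card_pos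
    have h1 := sum_update (e i)
      (fun ω : κ → Ω => Real.exp (l * ∑ j ∈ insert i s, c j ω * u (ω (e j))))
    have h2 : ∀ ω : κ → Ω, ∑ a : Ω, Real.exp (l * ∑ j ∈ insert i s,
        c j (Function.update ω (e i) a) * u (Function.update ω (e i) a (e j))) ≤
        Fintype.card Ω * Real.exp (l ^ 2 * v) * Real.exp (l * ∑ j ∈ s, c j ω * u (ω (e j))) := by
      intro ω
      have h3 : ∀ a : Ω, Real.exp (l * ∑ j ∈ insert i s,
          c j (Function.update ω (e i) a) * u (Function.update ω (e i) a (e j))) =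
          Real.exp (l * c i ω * u a) * Real.exp (l * ∑ j ∈ s, c j ω * u (ω (e j))) := by
        intro a
        rw [sum_insert hi, ← Real.exp_add, hc i (by simp) i (by simp), Function.update_self]
        congr 1
        rw [mul_add, mul_assoc]
        congr 2
        refine sum_congr rfl fun j hj => ?_
        rw [hc j (by simp [hj]) i (by simp), Function.update_of_ne]
        intro h
        have := he (by simp [hj]) (by simp) h
        exact hi (this ▸ hj)
      simp only [h3, ← sum_mul]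
      refine mul_le_mul_of_nonneg_right ?_ (Real.exp_pos _).le
      have h4 : ∀ a : Ω, Real.exp (l * c i ω * u a) ≤ 1 + l * c i ω * u a + l ^ 2 * u a ^ 2 := by
        intro a
        have b1 : |l * c i ω| ≤ l := by
          rw [abs_mul, abs_of_nonneg hl0]
          exact mul_le_of_le_one_right hl0 (hc1 i ω)
        have b2 : |l * c i ω * u a| ≤ 1 := by
          rw [abs_mul]
          exact mul_le_one₀ (b1.trans hl1) (abs_nonneg _) (hu1 a)
        have b3 := (abs_le.1 (Real.abs_exp_sub_one_sub_id_le b2)).2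
        have b4 : (l * c i ω) ^ 2 ≤ l ^ 2 := by
          rw [← sq_abs]
          exact pow_le_pow_left₀ (abs_nonneg _) b1 2
        have b5 : (l * c i ω * u a) ^ 2 ≤ l ^ 2 * u a ^ 2 := by
          rw [mul_pow]
          exact mul_le_mul_of_nonneg_right b4 (sq_nonneg _)
        linarith
      refine (sum_le_sum fun a _ => h4 a).trans ?_
      simp only [sum_add_distrib, ← mul_sum, hu0, sum_const, card_univ, nsmul_eq_mul]
      have b6 := Real.add_one_le_exp (l ^ 2 * v)
      nlinarith [mul_le_mul_of_nonneg_left hv (sq_nonneg l), mul_le_mul_of_nonneg_left b6 hN.le]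
    have h5 := sum_le_sum fun ω (_ : ω ∈ (univ : Finset (κ → Ω))) => h2 ω
    rw [h1, ← mul_sum, mul_assoc] at h5
    refine (le_of_mul_le_mul_left h5 hN).trans ?_
    rw [card_insert_of_notMem hi, Nat.cast_add_one, mul_add, mul_one, Real.exp_add]
    calc _ ≤ Real.exp (l ^ 2 * v) * (Fintype.card (κ → Ω) * Real.exp (l ^ 2 * v * s.card)) :=
          mul_le_mul_of_nonneg_left ih' (Real.exp_pos _).le
      _ = _ := by ring

/-- the deviation allowed at variance `V` and failure probability `exp (-A)` -/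
noncomputable def dv (A V : ℝ) : ℝ := 2 * √(A * (V + A))

theorem dv_nonneg (A V : ℝ) : 0 ≤ dv A V := by unfold dv; positivity

theorem dv_mono {A V W : ℝ} (hA : 0 ≤ A) (h : V ≤ W) : dv A V ≤ dv A W := by
  unfold dv
  gcongr

theorem dv_sq {A V : ℝ} (hA : 0 ≤ A) (h : 0 ≤ V) : dv A V ^ 2 = 4 * (A * (V + A)) := by
  unfold dv
  rw [mul_pow, Real.sq_sqrt (by positivity)]
  norm_num

theorem dv_le {A V x : ℝ} (hx : 0 ≤ x) (h : 4 * (A * (V + A)) ≤ x ^ 2) : dv A V ≤ x := by
  unfold dv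
  have : √(A * (V + A)) ≤ x / 2 := Real.sqrt_le_iff.2 ⟨by positivity, by nlinarith⟩
  linarith

theorem tail1 [Nonempty Ω] (u : Ω → ℝ) (v : ℝ) (hu0 : ∑ a, u a = 0) (hu1 : ∀ a, |u a| ≤ 1)
    (hv : ∑ a, u a ^ 2 ≤ v * Fintype.card Ω) (e : ι → κ) (c : ι → (κ → Ω) → ℝ)
    (hc1 : ∀ i ω, |c i ω| ≤ 1) (s : Finset ι) (he : Set.InjOn e s)
    (hc : ∀ i ∈ s, ∀ j ∈ s, ∀ ω a, c i (Function.update ω (e j) a) = c i ω)
    {A V : ℝ} (hA : 0 < A) (hV0 : 0 ≤ V) (hV : v * s.card ≤ V) :
    ((univ.filter fun ω : κ → Ω => dv A V ≤ ∑ i ∈ s, c i ω * u (ω (e i))).card : ℝ) ≤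
      Fintype.card (κ → Ω) * Real.exp (-A) := by
  have p : 0 < V + A := by linarith
  set l := √(A / (V + A)) with hl
  have l2 : l ^ 2 = A / (V + A) := Real.sq_sqrt (by positivity)
  have l1 : l ≤ 1 := Real.sqrt_le_iff.2 ⟨zero_le_one, by rw [div_le_iff₀ p]; linarith⟩
  have l0 : 0 ≤ l := Real.sqrt_nonneg _
  have l3 : l * dv A V = 2 * A := by
    unfold dv
    rw [mul_left_comm, hl, ← Real.sqrt_mul (by positivity),
      show A / (V + A) * (A * (V + A)) = A ^ 2 by field_simp, Real.sqrt_sq hA.le]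
  have h1 := mgf u v l l0 l1 hu0 hu1 hv e c hc1 s he hc
  have h2 : l ^ 2 * v * s.card ≤ A := by
    rw [mul_assoc]
    refine (mul_le_mul_of_nonneg_left hV (sq_nonneg l)).trans ?_
    rw [l2, div_mul_eq_mul_div, div_le_iff₀ p]
    nlinarith
  have h3 : ((univ.filter fun ω : κ → Ω => dv A V ≤ ∑ i ∈ s, c i ω * u (ω (e i))).card : ℝ) *
      Real.exp (2 * A) ≤ ∑ ω : κ → Ω, Real.exp (l * ∑ i ∈ s, c i ω * u (ω (e i))) := by
    rw [← nsmul_eq_mul, ← sum_const]
    refine (sum_le_sum fun ω hω => ?_).trans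
      (sum_le_sum_of_subset_of_nonneg (filter_subset _ _) fun _ _ _ => (Real.exp_pos _).le)
    rw [← l3]
    exact Real.exp_le_exp.2 (mul_le_mul_of_nonneg_left (mem_filter.1 hω).2 l0)
  have h4 := h3.trans (h1.trans
    (mul_le_mul_of_nonneg_left (Real.exp_le_exp.2 h2) (Nat.cast_nonneg _)))
  have h5 : Real.exp A = Real.exp (-A) * Real.exp (2 * A) := by
    rw [← Real.exp_add]
    ring_nf
  rw [h5, ← mul_assoc] at h4
  exact le_of_mul_le_mul_right h4 (Real.exp_pos _)

theorem tail2 [Nonempty Ω] (u : Ω → ℝ) (v : ℝ) (hu0 : ∑ a, u a = 0) (hu1 : ∀ a, |u a| ≤ 1)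
    (hv : ∑ a, u a ^ 2 ≤ v * Fintype.card Ω) (e : ι → κ) (c : ι → (κ → Ω) → ℝ)
    (hc1 : ∀ i ω, |c i ω| ≤ 1) (s : Finset ι) (he : Set.InjOn e s)
    (hc : ∀ i ∈ s, ∀ j ∈ s, ∀ ω a, c i (Function.update ω (e j) a) = c i ω)
    {A V : ℝ} (hA : 0 < A) (hV0 : 0 ≤ V) (hV : v * s.card ≤ V) :
    ((univ.filter fun ω : κ → Ω => dv A V ≤ |∑ i ∈ s, c i ω * u (ω (e i))|).card : ℝ) ≤
      Fintype.card (κ → Ω) * (2 * Real.exp (-A)) := by
  classical
  have a := tail1 u v hu0 hu1 hv e c hc1 s he hc hA hV0 hV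
  have b := tail1 u v hu0 hu1 hv e (fun i ω => -c i ω) (by simpa using hc1) s he
    (fun i hi j hj ω a => by simp only [hc i hi j hj]) hA hV0 hV
  have h : (univ.filter fun ω : κ → Ω => dv A V ≤ |∑ i ∈ s, c i ω * u (ω (e i))|) ⊆
      (univ.filter fun ω : κ → Ω => dv A V ≤ ∑ i ∈ s, c i ω * u (ω (e i))) ∪
      (univ.filter fun ω : κ → Ω => dv A V ≤ ∑ i ∈ s, -c i ω * u (ω (e i))) := by
    intro ω hω
    simp only [mem_filter, mem_univ, true_and, mem_union, neg_mul, sum_neg_distrib] at hω ⊢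
    exact le_abs.1 hω
  have h' := (Nat.cast_le (α := ℝ)).2 ((card_le_card h).trans (card_union_le _ _))
  rw [Nat.cast_add] at h'
  linarith

theorem union_bound {W J : Type} [Fintype W] [Nonempty W] [Fintype J] (bad : J → W → Prop)
    [∀ j, DecidablePred (bad j)] {p : ℝ}
    (h : ∀ j, ((univ.filter (bad j)).card : ℝ) ≤ Fintype.card W * p)
    (hJ : Fintype.card J * p < 1) : ∃ ω, ∀ j, ¬ bad j ω := by
  classical
  by_contra hc
  push Not at hc
  have h1 : (univ : Finset W) ⊆ univ.biUnion fun j => univ.filter (bad j) := by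
    intro ω _
    obtain ⟨j, hj⟩ := hc ω
    simp only [mem_biUnion, mem_univ, true_and, mem_filter]
    exact ⟨j, hj⟩
  have h2 : (Fintype.card W : ℝ) ≤ ∑ j, ((univ.filter (bad j)).card : ℝ) := by
    exact_mod_cast (card_le_card h1).trans card_biUnion_le
  have h3 := h2.trans (sum_le_sum fun j _ => h j)
  simp only [sum_const, card_univ, nsmul_eq_mul] at h3
  have hN : (0 : ℝ) < Fintype.card W := by exact_mod_cast Fintype.card_pos
  nlinarith

/-- indicator of a finite set -/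
noncomputable def ind {κ : Type} [DecidableEq κ] (S : Finset κ) (k : κ) : ℝ :=
  if k ∈ S then 1 else 0

/-- A random subset of density `t / M` satisfies all linear and all pair conditions at once. -/
theorem exists_set {ι' J J' : Type} [Fintype J] [Fintype J'] {M t : ℕ} (hM : 0 < M) (ht : t ≤ M)
    {θ A : ℝ} (hθ : θ = t / M) (hA : 0 < A)
    (hJ : 2 * ((Fintype.card J : ℝ) + 2 * Fintype.card J') < Real.exp A)
    (s : J → Finset ι) (e : J → ι → κ) (w : J → ι → ℝ) (V : J → ℝ)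
    (he : ∀ j, Set.InjOn (e j) (s j)) (hw : ∀ j i, |w j i| ≤ 1)
    (hV : ∀ j, θ * (1 - θ) * (s j).card ≤ V j)
    (s' : J' → Finset ι') (f f' : J' → ι' → κ) (V' : J' → ℝ)
    (hf : ∀ j, Set.InjOn (f j) (s' j)) (hf' : ∀ j, Set.InjOn (f' j) (s' j))
    (hd : ∀ j, ∀ i ∈ s' j, ∀ i' ∈ s' j, f' j i ≠ f j i')
    (hV' : ∀ j, θ * (1 - θ) * (s' j).card ≤ V' j) :
    ∃ S : Finset κ, (∀ j, |∑ i ∈ s j, w j i * (ind S (e j i) - θ)| ≤ dv A (V j)) ∧
      ∀ j, θ ^ 2 * (s' j).card - 2 * dv A (V' j) ≤ ∑ i ∈ s' j, ind S (f j i) * ind S (f' j i) := by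
  classical
  have : Nonempty (Fin M) := ⟨⟨0, hM⟩⟩
  have M0 : (0 : ℝ) < M := by exact_mod_cast hM
  have t0 : 0 ≤ θ := by rw [hθ]; positivity
  have t1 : θ ≤ 1 := by rw [hθ, div_le_one M0]; exact_mod_cast ht
  let χ : Fin M → ℝ := fun a => if a.val < t then 1 else 0
  have c1 : ∑ a, χ a = t := by
    simp only [χ, sum_boole, Fin.card_filter_val_lt, min_eq_right ht]
  have c2 : ∀ a, χ a = 0 ∨ χ a = 1 := fun a => by
    simp only [χ]
    split_ifs <;> simp
  have tM : (t : ℝ) = θ * M := by rw [hθ]; field_simp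
  have u0 : ∑ a, (χ a - θ) = 0 := by
    simp only [sum_sub_distrib, c1, sum_const, card_univ, Fintype.card_fin, nsmul_eq_mul]
    linarith
  have u1 : ∀ a, |χ a - θ| ≤ 1 := fun a => by
    rcases c2 a with h | h <;> rw [h, abs_le] <;> constructor <;> linarith
  have u2 : ∑ a, (χ a - θ) ^ 2 ≤ θ * (1 - θ) * Fintype.card (Fin M) := by
    have : ∀ a, (χ a - θ) ^ 2 = (1 - 2 * θ) * χ a + θ ^ 2 := fun a => by
      rcases c2 a with h | h <;> rw [h] <;> ring
    simp only [this, sum_add_distrib, ← mul_sum, c1, sum_const, card_univ, Fintype.card_fin,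
      nsmul_eq_mul, tM]
    nlinarith
  have v0 : ∀ {n : ℕ} {x : ℝ}, θ * (1 - θ) * n ≤ x → 0 ≤ x := fun h =>
    le_trans (mul_nonneg (mul_nonneg t0 (by linarith)) (Nat.cast_nonneg _)) h
  obtain ⟨ω, hω⟩ := union_bound (W := κ → Fin M) (J := J ⊕ J' ⊕ J') (p := 2 * Real.exp (-A))
    (fun j ω => match j with
      | .inl j => dv A (V j) ≤ |∑ i ∈ s j, w j i * (χ (ω (e j i)) - θ)|
      | .inr (.inl j) => dv A (V' j) ≤ |∑ i ∈ s' j, χ (ω (f' j i)) * (χ (ω (f j i)) - θ)|
      | .inr (.inr j) => dv A (V' j) ≤ |∑ i ∈ s' j, θ * (χ (ω (f' j i)) - θ)|)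
    (by
      rintro (j | j | j)
      · convert tail2 (fun a => χ a - θ) _ u0 u1 u2 (e j) (fun i _ => w j i) (fun i _ => hw j i)
          (s j) (he j) (fun _ _ _ _ _ _ => rfl) hA (v0 (hV j)) (hV j)
      · convert tail2 (fun a => χ a - θ) _ u0 u1 u2 (f j) (fun i ω => χ (ω (f' j i)))
          (fun i ω => by rcases c2 (ω (f' j i)) with h | h <;> simp [h]) (s' j) (hf j)
          (fun i hi i' hi' ω a => by rw [Function.update_of_ne (hd j i hi i' hi')]) hA
          (v0 (hV' j)) (hV' j)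
      · convert tail2 (fun a => χ a - θ) _ u0 u1 u2 (f' j) (fun _ _ => θ)
          (fun _ _ => by rwa [abs_of_nonneg t0]) (s' j) (hf' j) (fun _ _ _ _ _ _ => rfl) hA
          (v0 (hV' j)) (hV' j))
    (by
      rw [Real.exp_neg, ← mul_assoc, ← div_eq_mul_inv, div_lt_one (Real.exp_pos _)]
      simp only [Fintype.card_sum, Nat.cast_add]
      linarith)
  have hS : ∀ k, ind (univ.filter fun k => (ω k).val < t) k = χ (ω k) := fun k => by
    simp [ind, χ]
  refine ⟨univ.filter fun k => (ω k).val < t, fun j => ?_, fun j => ?_⟩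
  · simp only [hS]
    exact (not_le.1 (hω (.inl j))).le
  · simp only [hS]
    have a := (abs_lt.1 (not_le.1 (hω (.inr (.inl j))))).1
    have b := (abs_lt.1 (not_le.1 (hω (.inr (.inr j))))).1
    have c : ∑ i ∈ s' j, χ (ω (f j i)) * χ (ω (f' j i)) =
        ∑ i ∈ s' j, χ (ω (f' j i)) * (χ (ω (f j i)) - θ) +
        ∑ i ∈ s' j, θ * (χ (ω (f' j i)) - θ) + θ ^ 2 * (s' j).card := by
      rw [mul_comm (θ ^ 2), ← nsmul_eq_mul, ← sum_const, ← sum_add_distrib, ← sum_add_distrib]
      exact sum_congr rfl fun i _ => by ring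
    linarith

end Pool.Agent.MP_1dbd31_co.h58

end MrgPart0

-- ======== part 1: formerly Pool.Agent.MP_1dbd31_co.h58.Good
section MrgPart1

/-! Near designs: symmetric relations with almost constant degree and large codegree.
Random thinning changes the density, a blow up with random extra twins changes the order. -/

open Finset
open scoped Classical

namespace Pool.Agent.MP_1dbd31_co.h58

variable {V : Type} [Fintype V]

/-- neighbourhood in a relation -/
noncomputable def Nb (H : V → V → Prop) (x : V) : Finset V := univ.filter (H x)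

@[simp] theorem mem_Nb {H : V → V → Prop} {x y : V} : y ∈ Nb H x ↔ H x y := by simp [Nb]

/-- near design of density `γ` with error `E` -/
structure Good (H : V → V → Prop) (γ E : ℝ) : Prop where
  symm : ∀ x y, H x y → H y x
  deg : ∀ x, |((Nb H x).card : ℝ) - γ * Fintype.card V| ≤ E
  cod : ∀ x y, γ ^ 2 * Fintype.card V - E ≤ (Nb H x ∩ Nb H y).card

theorem Good.mono {H : V → V → Prop} {γ E E' : ℝ} (h : Good H γ E) (hE : E ≤ E') : Good H γ E' :=
  ⟨h.symm, fun x => (h.deg x).trans hE, fun x y => by linarith [h.cod x y]⟩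

theorem Good.adjust {H : V → V → Prop} {γ δ E : ℝ} (h : Good H γ E) (g1 : γ ≤ δ)
    (d1 : δ ≤ 1) (hd : (δ - γ) * Fintype.card V ≤ 1) : Good H δ (E + 2) := by
  have N0 : (0 : ℝ) ≤ Fintype.card V := Nat.cast_nonneg _
  have p : 0 ≤ (δ - γ) * Fintype.card V := mul_nonneg (by linarith) N0
  refine ⟨h.symm, fun x => ?_, fun x y => ?_⟩
  · have := abs_le.1 (h.deg x)
    rw [abs_le]
    constructor <;> nlinarith
  · have := h.cod x y
    have : (δ + γ) * ((δ - γ) * Fintype.card V) ≤ 2 * 1 :=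
      mul_le_mul (by linarith) hd p zero_le_two
    nlinarith

theorem good_top : Good (fun _ _ : V => True) 1 0 :=
  ⟨fun _ _ _ => trivial, fun x => by simp [Nb], fun x y => by simp [Nb]⟩

theorem sum_ind {κ ι : Type} [DecidableEq κ] (S : Finset κ) (s : Finset ι) (e : ι → κ) :
    ∑ i ∈ s, ind S (e i) = (s.filter fun i => e i ∈ S).card := by
  simp only [ind, sum_boole]

theorem sum_ind0 {κ : Type} [DecidableEq κ] (S s : Finset κ) :
    ∑ i ∈ s, ind S i = (s ∩ S).card := by
  simp only [ind, sum_boole, filter_mem_eq_inter]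

theorem sum_ind2 {κ ι : Type} [DecidableEq κ] (S : Finset κ) (s : Finset ι) (e e' : ι → κ) :
    ∑ i ∈ s, ind S (e i) * ind S (e' i) = (s.filter fun i => e i ∈ S ∧ e' i ∈ S).card := by
  rw [← sum_boole]
  refine sum_congr rfl fun i _ => ?_
  by_cases a : e i ∈ S <;> by_cases b : e' i ∈ S <;> simp [ind, a, b]

theorem thin0 [Nonempty V] {H : V → V → Prop} {γ E θ A W : ℝ} (h : Good H γ E) (g0 : 0 ≤ γ)
    (g1 : γ ≤ 1) {M t : ℕ} (hM : 0 < M) (ht : t ≤ M) (hθ : θ = t / M) (hA : 0 < A)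
    (hJ : 6 * (Fintype.card V : ℝ) ^ 2 < Real.exp A)
    (hW : θ * (1 - θ) * (γ * Fintype.card V + E) ≤ W) :
    ∃ H' : V → V → Prop, Good H' (θ * γ) (E + 2 + 2 * dv A W) := by
  have M0 : (0 : ℝ) < M := by exact_mod_cast hM
  have t0 : 0 ≤ θ := by rw [hθ]; positivity
  have t1 : θ ≤ 1 := by rw [hθ, div_le_one M0]; exact_mod_cast ht
  have t2 : 0 ≤ θ * (1 - θ) := mul_nonneg t0 (by linarith)
  have N1 : (1 : ℝ) ≤ Fintype.card V := by exact_mod_cast Fintype.card_pos
  have E0 : 0 ≤ E := (abs_nonneg _).trans (h.deg (Classical.arbitrary V))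
  have hd : ∀ x, θ * (1 - θ) * (Nb H x).card ≤ W := fun x =>
    (mul_le_mul_of_nonneg_left (by linarith [(abs_le.1 (h.deg x)).2]) t2).trans hW
  have inj : ∀ (x : V) (s : Set V), Set.InjOn (fun y => s(x, y)) s := fun x s a _ b _ hab =>
    Sym2.congr_right.1 hab
  obtain ⟨S, h1, h2⟩ := exists_set (κ := Sym2 V) (J := V) (J' := V × V) hM ht hθ hA
    (by simp only [Fintype.card_prod, Nat.cast_mul]; nlinarith)
    (Nb H) (fun x y => s(x, y)) (fun _ _ => 1) (fun _ => W) (fun x => inj x _) (by simp) hd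
    (fun p => if p.1 = p.2 then ∅ else (Nb H p.1 ∩ Nb H p.2) \ {p.1, p.2})
    (fun p y => s(p.1, y)) (fun p y => s(p.2, y)) (fun _ => W) (fun p => inj p.1 _)
    (fun p => inj p.2 _)
    (by
      intro p i hi i' hi'
      split_ifs at hi hi' with c
      · simp at hi
      · simp only [mem_sdiff, mem_insert, mem_singleton, not_or] at hi hi'
        simp only [ne_eq, Sym2.eq_iff, not_or, not_and]
        exact ⟨fun a => absurd a.symm c, fun a => absurd a.symm hi'.2.2⟩)
    (by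
      intro p
      refine le_trans (mul_le_mul_of_nonneg_left ?_ t2) (hd p.1)
      refine Nat.cast_le.2 (card_le_card ?_)
      split_ifs
      · simp
      · exact sdiff_subset.trans inter_subset_left)
  have D0 := dv_nonneg A W
  have hdeg : ∀ x, |((Nb (fun x y => H x y ∧ s(x, y) ∈ S) x).card : ℝ) - θ * γ * Fintype.card V| ≤
      E + dv A W := by
    intro x
    have a := abs_le.1 (h1 x)
    have b := abs_le.1 (h.deg x)
    simp only [one_mul, sum_sub_distrib, sum_ind, sum_const, nsmul_eq_mul] at a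
    have c : Nb (fun x y => H x y ∧ s(x, y) ∈ S) x = (Nb H x).filter fun i => s(x, i) ∈ S := by
      ext y
      simp
    rw [c, abs_le]
    constructor <;> nlinarith [mul_le_mul_of_nonneg_left b.1 t0, mul_le_mul_of_nonneg_left b.2 t0,
      mul_le_mul_of_nonneg_right t1 E0]
  refine ⟨fun x y => H x y ∧ s(x, y) ∈ S, fun x y a => ⟨h.symm _ _ a.1, Sym2.eq_swap ▸ a.2⟩,
    fun x => (hdeg x).trans (by linarith), fun x y => ?_⟩
  by_cases c : x = y
  · subst c
    have a := (abs_le.1 (hdeg x)).1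
    have b : θ * γ ≤ 1 := mul_le_one₀ t1 g0 g1
    have b0 : 0 ≤ θ * γ := mul_nonneg t0 g0
    rw [inter_self]
    nlinarith [mul_nonneg (mul_nonneg b0 (sub_nonneg.2 b)) (zero_le_one.trans N1)]
  · have a := h2 (x, y)
    simp only [c, if_false, sum_ind2] at a
    have b : (((Nb H x ∩ Nb H y) \ {x, y}).filter fun i => s(x, i) ∈ S ∧ s(y, i) ∈ S) ⊆
        Nb (fun x y => H x y ∧ s(x, y) ∈ S) x ∩ Nb (fun x y => H x y ∧ s(x, y) ∈ S) y := by
      intro z hz
      simp only [mem_filter, mem_sdiff, mem_inter, mem_Nb] at hz ⊢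
      tauto
    have b' := (Nat.cast_le (α := ℝ)).2 (card_le_card b)
    have d : (Nb H x ∩ Nb H y).card ≤ ((Nb H x ∩ Nb H y) \ {x, y}).card + 2 :=
      (card_le_card_sdiff_add_card (t := {x, y})).trans (Nat.add_le_add_left card_le_two _)
    have d' : ((Nb H x ∩ Nb H y).card : ℝ) ≤ ((Nb H x ∩ Nb H y) \ {x, y}).card + 2 := by
      exact_mod_cast d
    have e := h.cod x y
    have t3 : θ ^ 2 ≤ 1 := pow_le_one₀ t0 t1
    nlinarith [mul_le_mul_of_nonneg_left (e.trans d') (sq_nonneg θ),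
      mul_le_mul_of_nonneg_right t3 E0]

theorem thin [Nonempty V] {H : V → V → Prop} {γ δ E A W : ℝ} (h : Good H γ E) (d0 : 0 ≤ δ)
    (d1 : δ ≤ γ) (g1 : γ ≤ 1) (hA : 0 < A) (hJ : 6 * (Fintype.card V : ℝ) ^ 2 < Real.exp A)
    (hW : δ * Fintype.card V + E + 1 ≤ W ∨ (γ - δ) * Fintype.card V + E + 1 ≤ W) :
    ∃ H' : V → V → Prop, Good H' δ (E + 4 + 2 * dv A W) := by
  have D0 := dv_nonneg A W
  rcases (d0.trans d1).eq_or_lt with g0 | g0
  · exact ⟨H, (show γ = δ by linarith) ▸ h.mono (by linarith)⟩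
  have N0 : (0 : ℝ) < Fintype.card V := by exact_mod_cast Fintype.card_pos
  have E0 : 0 ≤ E := (abs_nonneg _).trans (h.deg (Classical.arbitrary V))
  set N : ℝ := (Fintype.card V : ℝ) with hN
  have q0 : 0 ≤ N * (δ / γ) := by positivity
  have a1 := Nat.floor_le q0
  have a2 := Nat.lt_floor_add_one (N * (δ / γ))
  set t := ⌊N * (δ / γ)⌋₊
  have a3 : δ / γ ≤ 1 := (div_le_one g0).2 d1
  have a4 : (t : ℝ) ≤ N := a1.trans (mul_le_of_le_one_right N0.le a3)
  have b1 : (t : ℝ) * γ ≤ N * δ := by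
    have := mul_le_mul_of_nonneg_right a1 g0.le
    rwa [mul_assoc, div_mul_cancel₀ _ g0.ne'] at this
  have b2 : N * δ ≤ (t + 1) * γ := by
    have := mul_le_mul_of_nonneg_right a2.le g0.le
    rwa [mul_assoc, div_mul_cancel₀ _ g0.ne'] at this
  obtain ⟨θ, hθ⟩ : ∃ θ : ℝ, θ = t / N := ⟨_, rfl⟩
  have c0 : θ * N = t := by rw [hθ]; field_simp
  have t0 : 0 ≤ θ := by rw [hθ]; positivity
  have t1 : θ ≤ 1 := by rw [hθ, div_le_one N0]; exact a4
  have c1 : θ * γ ≤ δ := le_of_mul_le_mul_right (by nlinarith) N0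
  have c2 : (δ - θ * γ) * N ≤ 1 := by nlinarith
  obtain ⟨H', h'⟩ := thin0 (W := W) h g0.le g1 Fintype.card_pos (Nat.cast_le.1 a4) hθ hA hJ (by
    have p1 : 0 ≤ γ * N + E := by positivity
    rcases hW with c | c
    · have : θ * (1 - θ) * (γ * N + E) ≤ θ * (γ * N + E) :=
        mul_le_mul_of_nonneg_right (by nlinarith) p1
      nlinarith [mul_le_mul_of_nonneg_right t1 E0]
    · have : θ * (1 - θ) * (γ * N + E) ≤ (1 - θ) * (γ * N + E) :=
        mul_le_mul_of_nonneg_right (by nlinarith) p1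
      nlinarith [mul_nonneg t0 E0])
  exact ⟨H', (h'.adjust c1 (d1.trans g1) c2).mono (by linarith)⟩

theorem blow [Nonempty V] {H : V → V → Prop} {γ E A : ℝ} (h : Good H γ E) {w t : ℕ}
    (ht : t ≤ Fintype.card V) (hA : 0 < A) (hJ : 6 * (Fintype.card V : ℝ) ^ 2 < Real.exp A) :
    ∃ (U : Type) (_ : Fintype U) (H' : U → U → Prop), Fintype.card U = w * Fintype.card V + t ∧
      Good H' γ ((w + 1) * E + 2 * dv A (Fintype.card V)) := by
  have N1 : (1 : ℝ) ≤ Fintype.card V := by exact_mod_cast Fintype.card_pos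
  have E0 : 0 ≤ E := (abs_nonneg _).trans (h.deg (Classical.arbitrary V))
  obtain ⟨θ, hθ⟩ : ∃ θ : ℝ, θ = t / Fintype.card V := ⟨_, rfl⟩
  have c0 : θ * Fintype.card V = t := by rw [hθ]; field_simp
  have t0 : 0 ≤ θ := by rw [hθ]; positivity
  have t1 : θ ≤ 1 := by rw [hθ, div_le_one (by linarith)]; exact_mod_cast ht
  obtain ⟨S, h1, -⟩ := exists_set (κ := V) (ι' := Unit) (J := Option (V × V)) (J' := Empty)
    Fintype.card_pos ht hθ hA
    (by simp only [Fintype.card_option, Fintype.card_prod, Fintype.card_empty]; push_cast; nlinarith)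
    (fun j => j.elim univ fun p => Nb H p.1 ∩ Nb H p.2) (fun _ y => y) (fun _ _ => 1)
    (fun _ => Fintype.card V) (fun _ => Function.injective_id.injOn) (by simp)
    (fun j => by
      have a : θ * (1 - θ) ≤ 1 := by nlinarith
      exact (mul_le_of_le_one_left (Nat.cast_nonneg _) a).trans (Nat.cast_le.2 (card_le_univ _)))
    Empty.elim Empty.elim Empty.elim Empty.elim (fun j => j.elim) (fun j => j.elim)
    (fun j => j.elim) (fun j => j.elim)
  simp only [one_mul, sum_sub_distrib, sum_ind0, sum_const, nsmul_eq_mul] at h1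
  set D := dv A (Fintype.card V)
  have a := abs_le.1 (h1 none)
  simp only [Option.elim, univ_inter, card_univ, mul_comm _ θ, c0] at a
  obtain ⟨T, T1, T2⟩ : ∃ T : Finset V, T.card = t ∧
      ∀ C : Finset V, |((C ∩ T).card : ℝ) - (C ∩ S).card| ≤ D := by
    have key : ∀ P Q C : Finset V, P ⊆ Q → ((C ∩ P).card : ℝ) ≤ (C ∩ Q).card ∧
        ((C ∩ Q).card : ℝ) + P.card ≤ (C ∩ P).card + Q.card := by
      intro P Q C hPQ
      refine ⟨Nat.cast_le.2 (card_le_card (inter_subset_inter_left hPQ)), ?_⟩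
      have e1 := card_sdiff_add_card_inter P C
      have e2 := card_sdiff_add_card_inter Q C
      have e3 := card_le_card (sdiff_subset_sdiff hPQ (Subset.refl C))
      rw [inter_comm] at e1 e2
      exact_mod_cast (by omega : (C ∩ Q).card + P.card ≤ (C ∩ P).card + Q.card)
    rcases le_total t S.card with c | c
    · obtain ⟨T, p, q⟩ := exists_subset_card_eq c
      refine ⟨T, q, fun C => ?_⟩
      have := key T S C p
      rw [q] at this
      rw [abs_le]
      constructor <;> linarith [this.1, this.2, a.1, a.2]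
    · obtain ⟨T, p, q⟩ := exists_superset_card_eq c ht
      refine ⟨T, q, fun C => ?_⟩
      have := key S T C p
      rw [q] at this
      rw [abs_le]
      constructor <;> linarith [this.1, this.2, a.1, a.2]
  let f : (Fin w × V) ⊕ T → V := Sum.elim Prod.snd Subtype.val
  have cnt : ∀ C : Finset V, ((univ.filter fun y => f y ∈ C).card : ℝ) =
      w * C.card + (C ∩ T).card := by
    intro C
    have e := sum_ind C univ f
    rw [Fintype.sum_sum_type, Fintype.sum_prod_type] at e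
    simp only [f, Sum.elim_inl, Sum.elim_inr, sum_const, card_univ, Fintype.card_fin,
      nsmul_eq_mul] at e
    rw [sum_coe_sort T (ind C), sum_ind0, sum_ind0, univ_inter, inter_comm] at e
    exact e.symm
  have hU : Fintype.card ((Fin w × V) ⊕ T) = w * Fintype.card V + t := by simp [T1]
  have key : ∀ x y, |((Nb (fun a b => H (f a) (f b)) x ∩ Nb (fun a b => H (f a) (f b)) y).card : ℝ) -
      (w + θ) * (Nb H (f x) ∩ Nb H (f y)).card| ≤ 2 * D := by
    intro x y
    have e : Nb (fun a b => H (f a) (f b)) x ∩ Nb (fun a b => H (f a) (f b)) y =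
        univ.filter fun z => f z ∈ Nb H (f x) ∩ Nb H (f y) := by
      ext z
      simp
    have b1 := abs_le.1 (h1 (some (f x, f y)))
    have b2 := abs_le.1 (T2 (Nb H (f x) ∩ Nb H (f y)))
    simp only [Option.elim] at b1
    rw [e, cnt, abs_le]
    constructor <;> linarith [b1.1, b1.2, b2.1, b2.2]
  have w0 : (0 : ℝ) ≤ w + θ := by positivity
  have w1 := mul_le_mul_of_nonneg_right t1 E0
  refine ⟨_, inferInstance, fun a b => H (f a) (f b), hU, fun x y => h.symm _ _, fun x => ?_,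
    fun x y => ?_⟩
  · have b1 := abs_le.1 (key x x)
    have b2 := abs_le.1 (h.deg (f x))
    rw [inter_self, inter_self] at b1
    rw [hU, abs_le]
    push_cast
    rw [← c0]
    constructor <;> nlinarith [mul_le_mul_of_nonneg_left b2.1 w0, mul_le_mul_of_nonneg_left b2.2 w0]
  · have b1 := abs_le.1 (key x y)
    have b2 := h.cod (f x) (f y)
    have b3 := mul_le_mul_of_nonneg_left b2 w0
    have b4 : γ ^ 2 * (w * Fintype.card V + θ * Fintype.card V) - ((w + 1) * E + 2 * D) ≤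
        (Nb (fun a b => H (f a) (f b)) x ∩ Nb (fun a b => H (f a) (f b)) y).card := by
      linarith [b1.1]
    rw [hU]
    push_cast
    rw [← c0]
    exact b4.trans (Nat.cast_le.2 (card_le_card fun z hz => by simpa using hz))

end Pool.Agent.MP_1dbd31_co.h58

end MrgPart1

-- ======== part 2: formerly Pool.Agent.MP_1dbd31_co.h58.Sums
section MrgPart2

/-! A random subset of a finite group of exponent two, counted along subgroups.
Averaging over a subgroup squares the relative error of the correlation sums. -/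

open Finset
open scoped Classical

namespace Pool.Agent.MP_1dbd31_co.h58

variable {L G : Type} [AddCommGroup L] [Fintype L] [AddCommGroup G] [Fintype G]

/-- the elements of a subgroup -/
noncomputable def el (W : AddSubgroup L) : Finset L := univ.filter fun Y => Y ∈ W

@[simp] theorem mem_el {W : AddSubgroup L} {Y : L} : Y ∈ el W ↔ Y ∈ W := by simp [el]

theorem card_el (W : AddSubgroup L) : (el W).card = Nat.card W := by
  rw [Nat.card_eq_fintype_card, Fintype.card_subtype]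
  rfl

/-- number of `Y ∈ W` with `c + D Y ∈ S` -/
noncomputable def nn (S : Finset G) (W : AddSubgroup L) (D : L →+ G) (c : G) : ℝ :=
  ∑ Y ∈ el W, ind S (c + D Y)

/-- number of `b ∈ S` with `b + z ∈ S` -/
noncomputable def RR (S : Finset G) (z : G) : ℝ := ∑ b, ind S b * ind S (b + z)

theorem sum_ind_univ (S : Finset G) (c : G) : ∑ b, ind S (b + c) = S.card := by
  rw [← univ_inter S, ← sum_ind0, univ_inter]
  exact Equiv.sum_comp (Equiv.addRight c) (ind S)

theorem RR_zero (S : Finset G) : RR S 0 = S.card := by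
  rw [← sum_ind_univ S 0]
  refine sum_congr rfl fun b _ => ?_
  by_cases h : b ∈ S <;> simp [ind, h]

omit [Fintype G] in
theorem nn_add (S : Finset G) (W : AddSubgroup L) (D : L →+ G) (c : G) {Z : L} (hZ : Z ∈ W) :
    nn S W D (c + D Z) = nn S W D c := by
  refine sum_equiv (Equiv.addLeft Z) (fun Y => ?_) (fun Y _ => ?_)
  · simp [W.add_mem_cancel_left hZ]
  · simp [add_assoc]

theorem Tlem (S : Finset G) (W : AddSubgroup L) (D : L →+ G) (z : G) {μ x : ℝ}
    (h : ∀ c, |nn S W D c - μ| ≤ x) :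
    |(el W).card * ∑ Y ∈ el W, RR S (z + D Y) -
      ((el W).card : ℝ) ^ 2 * ((S.card : ℝ) ^ 2 / Fintype.card G)| ≤ 2 * Fintype.card G * x ^ 2 := by
  have g0 : (0 : ℝ) < Fintype.card G := by exact_mod_cast Fintype.card_pos
  have s1 : ∀ c, ∑ b, nn S W D (b + c) = (el W).card * S.card := fun c => by
    simp only [nn]
    rw [sum_comm]
    simp only [add_assoc, sum_ind_univ, sum_const, nsmul_eq_mul]
  have s2 : ∑ Y ∈ el W, RR S (z + D Y) = ∑ b, ind S b * nn S W D (b + z) := by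
    simp only [RR, nn, mul_sum, add_assoc]
    exact sum_comm
  have s3 : (el W).card * ∑ b, ind S b * nn S W D (b + z) =
      ∑ b, nn S W D b * nn S W D (b + z) := by
    rw [← nsmul_eq_mul, ← sum_const]
    conv_rhs => enter [2, b]; rw [nn, sum_mul]
    rw [sum_comm (s := univ)]
    refine sum_congr rfl fun Z hZ => ?_
    rw [← Equiv.sum_comp (Equiv.addRight (D Z))]
    refine sum_congr rfl fun b _ => ?_
    rw [Equiv.coe_addRight, add_right_comm, nn_add _ _ _ _ (mem_el.1 hZ)]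
  have s4 : ∑ b, nn S W D b * nn S W D (b + z) =
      ∑ b, (nn S W D b - μ) * (nn S W D (b + z) - μ) + 2 * μ * ((el W).card * S.card) -
        μ ^ 2 * Fintype.card G := by
    have a := s1 0
    simp only [add_zero] at a
    have : ∀ b, (nn S W D b - μ) * (nn S W D (b + z) - μ) =
        nn S W D b * nn S W D (b + z) - μ * nn S W D b - μ * nn S W D (b + z) + μ ^ 2 :=
      fun b => by ring
    simp only [this, sum_add_distrib, sum_sub_distrib, ← mul_sum, a, s1, sum_const, card_univ,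
      nsmul_eq_mul]
    ring
  have s5 : |∑ b, (nn S W D b - μ) * (nn S W D (b + z) - μ)| ≤ Fintype.card G * x ^ 2 := by
    refine (abs_sum_le_sum_abs _ _).trans ?_
    rw [← nsmul_eq_mul, ← card_univ]
    refine sum_le_card_nsmul _ _ _ fun b _ => ?_
    rw [abs_mul, sq]
    exact mul_le_mul (h _) (h _) (abs_nonneg _) ((abs_nonneg _).trans (h b))
  have s6 : |(el W).card * S.card - μ * Fintype.card G| ≤ Fintype.card G * x := by
    rw [← s1 0, mul_comm μ, ← nsmul_eq_mul, ← card_univ, ← sum_const, ← sum_sub_distrib]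
    refine (abs_sum_le_sum_abs _ _).trans ?_
    rw [← nsmul_eq_mul]
    exact sum_le_card_nsmul _ _ _ fun b _ => h _
  rw [s2, s3, s4]
  set P : ℝ := (el W).card * S.card with hP
  set g : ℝ := (Fintype.card G : ℝ)
  have s7 : ((el W).card : ℝ) ^ 2 * ((S.card : ℝ) ^ 2 / g) =
      2 * μ * P - μ ^ 2 * g + (P - μ * g) ^ 2 / g := by
    rw [hP]
    field_simp
    ring
  have s8 : (P - μ * g) ^ 2 / g ≤ g * x ^ 2 := by
    rw [div_le_iff₀ g0, ← sq_abs]
    calc _ ≤ (g * x) ^ 2 := pow_le_pow_left₀ (abs_nonneg _) s6 2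
      _ = _ := by ring
  have s9 : 0 ≤ (P - μ * g) ^ 2 / g := by positivity
  have := abs_le.1 s5
  rw [s7, abs_le]
  constructor <;> linarith [this.1, this.2]

theorem Ttop (S : Finset G) (D : L →+ G) (hD : Function.Surjective D) (z : G) :
    ∑ Y, RR S (z + D Y) = Fintype.card L * ((S.card : ℝ) ^ 2 / Fintype.card G) := by
  have e : el (⊤ : AddSubgroup L) = univ := by ext; simp
  have l0 : (0 : ℝ) < Fintype.card L := by exact_mod_cast Fintype.card_pos
  have := Tlem S ⊤ D z (μ := nn S ⊤ D 0) (x := 0) fun c => by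
    obtain ⟨Z, rfl⟩ := hD c
    rw [← zero_add (D Z), nn_add _ _ _ _ (AddSubgroup.mem_top Z)]
    simp
  rw [e, card_univ] at this
  simp only [ne_eq, OfNat.ofNat_ne_zero, not_false_eq_true, zero_pow, mul_zero, abs_nonpos_iff,
    sub_eq_zero] at this
  refine mul_left_cancel₀ l0.ne' ?_
  rw [this]
  ring

/-- half of the group, one point from each pair `b, b + z` -/
noncomputable def tr (z : G) : Finset G :=
  univ.filter fun b => Fintype.equivFin G b < Fintype.equivFin G (b + z)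

theorem sum_tr (h2 : ∀ a : G, a + a = 0) {z : G} (hz : z ≠ 0) (F : G → ℝ) :
    ∑ b, F b = ∑ b ∈ tr z, F b + ∑ b ∈ tr z, F (b + z) := by
  have e : ∀ b : G, b + z + z = b := fun b => by rw [add_assoc, h2, add_zero]
  rw [← sum_filter_add_sum_filter_not univ
    fun b => Fintype.equivFin G b < Fintype.equivFin G (b + z)]
  congr 1
  symm
  refine sum_equiv (Equiv.addRight z) (fun b => ?_) (fun b _ => rfl)
  simp only [tr, mem_filter, mem_univ, true_and, Equiv.coe_addRight, e, not_lt]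
  refine ⟨le_of_lt, fun h => lt_of_le_of_ne h fun c => hz ?_⟩
  exact left_eq_add.1 ((Fintype.equivFin G).injective c)

theorem exists_S (h2 : ∀ a : G, a + a = 0) {J : Type} [Fintype J] (D : J → L →+ G)
    (W : J → AddSubgroup L) (h8 : ∀ j c, ((el (W j)).filter fun Y => D j Y = c).card ≤ 8)
    {t : ℕ} (ht : t ≤ Fintype.card G) {A : ℝ} (hA : 0 < A)
    (hJ : 2 * ((Fintype.card J : ℝ) + 3) * Fintype.card G < Real.exp A) :
    ∃ (S : Finset G) (θ : ℝ), |(S.card : ℝ) - t| ≤ dv A (Fintype.card G) ∧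
      (∀ j c, |nn S (W j) (D j) c - θ * (el (W j)).card| ≤ 8 * dv A (el (W j)).card) ∧
      ∀ z, z ≠ 0 → (t : ℝ) ^ 2 / Fintype.card G - 4 * dv A (Fintype.card G) ≤ RR S z := by
  have g1 : (1 : ℝ) ≤ Fintype.card G := by exact_mod_cast Fintype.card_pos
  obtain ⟨θ, hθ⟩ : ∃ θ : ℝ, θ = t / Fintype.card G := ⟨_, rfl⟩
  have c0 : θ * Fintype.card G = t := by rw [hθ]; field_simp
  have t0 : 0 ≤ θ := by rw [hθ]; positivity
  have t1 : θ ≤ 1 := by rw [hθ, div_le_one (by linarith)]; exact_mod_cast ht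
  have t2 : ∀ {a b : ℕ}, a ≤ b → θ * (1 - θ) * a ≤ b := fun hab =>
    (mul_le_of_le_one_left (Nat.cast_nonneg _) (by nlinarith)).trans (Nat.cast_le.2 hab)
  have e : ∀ b z : G, b + z + z = b := fun b z => by rw [add_assoc, h2, add_zero]
  obtain ⟨S, h1, h3⟩ := exists_set (κ := G) (J := Option (J × G)) (J' := G)
    Fintype.card_pos ht hθ hA
    (by simp only [Fintype.card_option, Fintype.card_prod]; push_cast; nlinarith)
    (fun j => j.elim univ fun p => (el (W p.1)).image fun Y => p.2 + D p.1 Y) (fun _ y => y)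
    (fun j k => j.elim 1 fun p => ((el (W p.1)).filter fun Y => p.2 + D p.1 Y = k).card / 8)
    (fun j => j.elim (Fintype.card G) fun p => (el (W p.1)).card)
    (fun _ => Function.injective_id.injOn)
    (by
      rintro (_ | p) k
      · simp
      · have := h8 p.1 (k - p.2)
        simp only [eq_sub_iff_add_eq'] at this
        simp only [Option.elim]
        rw [abs_of_nonneg (by positivity), div_le_one (by norm_num)]
        exact_mod_cast this)
    (by
      rintro (_ | p)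
      · exact t2 le_rfl
      · exact t2 card_image_le)
    tr (fun _ b => b) (fun z b => b + z) (fun _ => Fintype.card G)
    (fun _ => Function.injective_id.injOn) (fun z => (add_left_injective z).injOn)
    (by
      intro z b hb b' hb' c
      simp only [tr, mem_filter, mem_univ, true_and] at hb hb'
      rw [← c, e] at hb'
      exact lt_asymm hb hb')
    (fun z => t2 (card_le_univ _))
  refine ⟨S, θ, ?_, fun j c => ?_, fun z hz => ?_⟩
  · have a := h1 none
    simp only [Option.elim, one_mul, sum_sub_distrib, sum_ind0, univ_inter, sum_const, card_univ,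
      nsmul_eq_mul, mul_comm _ θ, c0] at a
    exact a
  · have a := h1 (some (j, c))
    simp only [Option.elim] at a
    have b := sum_comp (s := el (W j)) (fun k => ind S k - θ) fun Y => c + D j Y
    simp only [sum_sub_distrib (s := el (W j)), sum_const, nsmul_eq_mul] at b
    rw [nn, mul_comm θ, b]
    simp only [div_mul_eq_mul_div, ← sum_div, abs_div] at a
    rw [div_le_iff₀ (by norm_num)] at a
    refine a.trans (le_of_eq ?_)
    norm_num [mul_comm]
  · have a := h3 z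
    have b := sum_tr h2 hz fun _ => 1
    have d := sum_tr h2 hz fun b => ind S b * ind S (b + z)
    simp only [e, mul_comm (ind S (_ + z))] at d
    simp only [sum_const, card_univ, nsmul_eq_mul, mul_one] at b
    have f : (t : ℝ) ^ 2 / Fintype.card G = θ ^ 2 * Fintype.card G := by
      rw [← c0]
      field_simp
    rw [RR, d, f, b]
    rw [b] at a
    linarith

end Pool.Agent.MP_1dbd31_co.h58

end MrgPart2

-- ======== part 3: formerly Pool.Agent.MP_1dbd31_co.h58.Base
section MrgPart3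

/-! The algebraic base design with a random connection set, over abstract groups. -/

open Finset
open scoped Classical

namespace Pool.Agent.MP_1dbd31_co.h58

theorem Good.of_sum {V : Type} [Fintype V] {H : V → V → Prop} {γ E : ℝ}
    (hs : ∀ x y, H x y → H y x) (c : V → V → ℝ)
    (hc : ∀ x y, ∑ z, (if H x z ∧ H y z then (1 : ℝ) else 0) = c x y)
    (h1 : ∀ x, |c x x - γ * Fintype.card V| ≤ E) (h2 : ∀ x y, γ ^ 2 * Fintype.card V - E ≤ c x y) :
    Good H γ E := by
  have e : ∀ x y, ((Nb H x ∩ Nb H y).card : ℝ) = c x y := fun x y => by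
    rw [← hc, sum_boole]
    congr 2
    ext z
    simp
  refine ⟨hs, fun x => ?_, fun x y => e x y ▸ h2 x y⟩
  have := e x x
  rw [inter_self] at this
  rw [this]
  exact h1 x

variable {L G : Type} [AddCommGroup L] [Fintype L] [AddCommGroup G] [Fintype G]

/-- the base relation -/
def rel (B : L → L →+ G) (Hs : L → AddSubgroup L) (S : Finset G)
    (p q : {X : L // X ≠ 0} × G) : Prop :=
  p.2 + q.2 + B p.1 q.1 ∈ S ∧ (q.1 : L) ∉ Hs p.1

theorem cod_eq (h2 : ∀ a : G, a + a = 0) (B : L → L →+ G) (Hs : L → AddSubgroup L) (S : Finset G)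
    (p q : {X : L // X ≠ 0} × G) :
    ∑ z, (if rel B Hs S p z ∧ rel B Hs S q z then (1 : ℝ) else 0) =
      ∑ Y : L, if Y ∉ Hs p.1 ∧ Y ∉ Hs q.1 then RR S (p.2 + q.2 + (B p.1 + B q.1) Y) else 0 := by
  rw [Fintype.sum_prod_type, Fintype.sum_eq_add_sum_subtype_ne _ (0 : L), if_neg (by simp),
    zero_add]
  refine sum_congr rfl fun Y _ => ?_
  split_ifs with c
  · symm
    rw [RR, ← Equiv.sum_comp (Equiv.addRight (p.2 + B p.1 Y))]
    refine sum_congr rfl fun b _ => ?_
    have e1 : b + (p.2 + B p.1 Y) = p.2 + b + B p.1 Y := by abel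
    have e2 : p.2 + b + B p.1 Y + (p.2 + q.2 + (B p.1 + B q.1) Y) = q.2 + b + B q.1 Y := by
      rw [AddMonoidHom.add_apply, ← add_zero (q.2 + b + B q.1 Y), ← h2 (p.2 + B p.1 Y)]
      abel
    simp only [Equiv.coe_addRight, e1, e2]
    simp only [rel, c.1, c.2, not_false_eq_true, and_true, ind]
    by_cases a1 : p.2 + b + B p.1 Y ∈ S <;> by_cases a2 : q.2 + b + B q.1 Y ∈ S <;> simp [a1, a2]
  · refine sum_eq_zero fun b _ => if_neg fun a => c ⟨a.1.2, a.2.2⟩

theorem incl_excl (H K : AddSubgroup L) (r : L → ℝ) :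
    ∑ Y : L, (if Y ∉ H ∧ Y ∉ K then r Y else 0) =
      ∑ Y, r Y - ∑ Y ∈ el H, r Y - ∑ Y ∈ el K, r Y + ∑ Y ∈ el (H ⊓ K), r Y := by
  simp only [el, sum_filter, ← sum_sub_distrib, ← sum_add_distrib, AddSubgroup.mem_inf]
  refine sum_congr rfl fun Y _ => ?_
  by_cases a : Y ∈ H <;> by_cases b : Y ∈ K <;> simp [a, b]

theorem card_inf_ge {m : ℕ} (hm : 0 < m) (hL : Fintype.card L = m ^ 4) {H K : AddSubgroup L}
    (hH : (el H).card = m ^ 3) (hK : (el K).card = m ^ 3) : m ^ 2 ≤ (el (H ⊓ K)).card := by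
  have key : ∀ W : AddSubgroup L, (el W).card * W.index = m ^ 4 := fun W => by
    rw [card_el, AddSubgroup.card_mul_index, Nat.card_eq_fintype_card, hL]
  have idx : ∀ W : AddSubgroup L, (el W).card = m ^ 3 → W.index = m := fun W hW => by
    have := key W
    rw [hW, pow_succ m 3] at this
    exact Nat.eq_of_mul_eq_mul_left (by positivity) this
  have a := AddSubgroup.index_inf_le (H := H) (K := K)
  rw [idx H hH, idx K hK] at a
  have b := key (H ⊓ K)
  refine Nat.le_of_mul_le_mul_right (c := m * m) ?_ (by positivity)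
  calc m ^ 2 * (m * m) = m ^ 4 := by ring
    _ ≤ _ := b ▸ Nat.mul_le_mul_left _ a

theorem base {m : ℕ} (h2 : ∀ a : G, a + a = 0) (B : L → L →+ G) (hB : ∀ X Y, B X Y = B Y X)
    (Hs : L → AddSubgroup L) (hH : ∀ X Y, Y ∈ Hs X → X ∈ Hs Y)
    (hL : Fintype.card L = m ^ 4) (hG : Fintype.card G = m ^ 3)
    (hc : ∀ X, X ≠ 0 → (el (Hs X)).card = m ^ 3)
    (hs : ∀ X X', X ≠ X' → Function.Surjective (B X + B X'))
    (h8 : ∀ X X' Z c, X ≠ X' → Z ≠ 0 →
      ((el (Hs Z)).filter fun Y => (B X + B X') Y = c).card ≤ 8)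
    {γ A : ℝ} (hA : 1 ≤ A) (g0 : 0 ≤ γ) (g1 : γ ≤ 1 / 2) (hm : 288 * A ≤ γ ^ 4 * m)
    (hJ : 8 * (m : ℝ) ^ 19 < Real.exp A) :
    ∃ (V : Type) (_ : Fintype V) (H : V → V → Prop), Fintype.card V + m ^ 3 = m ^ 7 ∧
      Good H γ (3100 * A * m ^ 3) := by
  have m0 : (0 : ℝ) ≤ m := Nat.cast_nonneg _
  have g4 : γ ^ 4 ≤ 1 / 16 := (pow_le_pow_left₀ g0 g1 4).trans (by norm_num)
  have mA : 4608 * A ≤ m := by linarith [mul_le_mul_of_nonneg_right g4 m0]
  have m1 : (4608 : ℝ) ≤ m := by linarith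
  have mp : 0 < m := by exact_mod_cast (by linarith : (0 : ℝ) < m)
  have pw : ∀ a b : ℕ, a ≤ b → (m : ℝ) ^ a ≤ (m : ℝ) ^ b := fun a b hab =>
    pow_le_pow_right₀ (by linarith) hab
  have gG : (Fintype.card G : ℝ) = m ^ 3 := by rw [hG]; push_cast; rfl
  have gL : (Fintype.card L : ℝ) = m ^ 4 := by rw [hL]; push_cast; rfl
  have A2 : A ≤ (m : ℝ) ^ 2 := by linarith [pw 1 2 (by norm_num)]
  have A3 : A ≤ (m : ℝ) ^ 3 := A2.trans (pw 2 3 (by norm_num))
  have m3 : (0 : ℝ) < m ^ 3 := by positivity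
  obtain ⟨d, hd⟩ : ∃ d, d = dv A (m ^ 3) := ⟨_, rfl⟩
  have d0 : 0 ≤ d := hd ▸ dv_nonneg _ _
  have d1 : d ≤ γ ^ 2 * m ^ 2 / 6 := by
    rw [hd]
    refine dv_le (by positivity) ?_
    linarith [mul_le_mul_of_nonneg_right hm m3.le, mul_le_mul_of_nonneg_left A3 (by linarith : 0 ≤ A)]
  have d2 : d ≤ (m : ℝ) ^ 2 / 24 := by
    linarith [mul_le_mul_of_nonneg_right (pow_le_pow_left₀ g0 g1 2) (sq_nonneg (m : ℝ))]
  obtain ⟨p, hp⟩ : ∃ p : ℝ, p = γ * m ^ 4 / (m - 1) := ⟨_, rfl⟩
  have p1 : p * (m - 1) = γ * m ^ 4 := by rw [hp, div_mul_cancel₀ _ (by linarith)]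
  have p0 : γ * m ^ 3 ≤ p := by
    refine le_of_mul_le_mul_right ?_ (by linarith : (0 : ℝ) < m - 1)
    linarith [mul_nonneg g0 m3.le]
  have p2 : p ≤ 2 / 3 * m ^ 3 := by
    refine le_of_mul_le_mul_right ?_ (by linarith : (0 : ℝ) < m - 1)
    linarith [mul_le_mul_of_nonneg_right g1 (by positivity : (0 : ℝ) ≤ m ^ 4),
      mul_le_mul_of_nonneg_right m1 m3.le]
  have pd : 0 ≤ p + d := by linarith [mul_nonneg g0 m3.le]
  have t1 := Nat.le_ceil (p + d)
  have t2 := Nat.ceil_lt_add_one pd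
  have t3 : ⌈p + d⌉₊ ≤ Fintype.card G := by
    rw [Nat.ceil_le, gG]
    linarith [pw 2 3 (by norm_num)]
  set t := ⌈p + d⌉₊
  obtain ⟨S, θ, s1, s2, s3⟩ := exists_S (L := L)
    (J := {x : L × L × L × L // x.1 ≠ x.2.1 ∧ x.2.2.1 ≠ 0}) h2 (fun x => B x.1.1 + B x.1.2.1)
    (fun x => Hs x.1.2.2.1 ⊓ Hs x.1.2.2.2)
    (fun x c => le_trans (card_le_card (monotone_filter_left _ fun Y hY => by
      simp only [mem_el, AddSubgroup.mem_inf] at hY ⊢
      exact hY.1)) (h8 _ _ _ c x.2.1 x.2.2)) t3 (A := A) (by linarith)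
    (by
      have a := (Nat.cast_le (α := ℝ)).2
        (Fintype.card_subtype_le fun x : L × L × L × L => x.1 ≠ x.2.1 ∧ x.2.2.1 ≠ 0)
      simp only [Fintype.card_prod, Nat.cast_mul, gL] at a
      rw [gG]
      refine lt_of_le_of_lt ?_ hJ
      have b := pw 3 19 (by norm_num)
      linarith [mul_le_mul_of_nonneg_right a m3.le])
  rw [gG, ← hd] at s1 s3
  obtain ⟨j, hj⟩ : ∃ j : ℝ, j = S.card := ⟨_, rfl⟩
  obtain ⟨q, hq⟩ : ∃ q : ℝ, q = j ^ 2 / m ^ 3 := ⟨_, rfl⟩
  have j1 : j ≤ m ^ 3 := by rw [hj, ← gG]; exact_mod_cast card_le_univ S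
  have t4 : (t : ℝ) ≤ m ^ 3 := by rw [← gG]; exact_mod_cast t3
  rw [← hj, abs_le] at s1
  have j2 : γ * m ^ 3 ≤ j := by linarith [s1.1]
  have j0 : 0 ≤ j := le_trans (by positivity) j2
  have q1 : q * m ^ 3 = j ^ 2 := by rw [hq]; field_simp
  have q0 : 0 ≤ q := by rw [hq]; positivity
  have hT : ∀ X X' Z Z' z, X ≠ X' → Z ≠ 0 → Z' ≠ 0 →
      |∑ Y ∈ el (Hs Z ⊓ Hs Z'), RR S (z + (B X + B X') Y) - (el (Hs Z ⊓ Hs Z')).card * q| ≤
        1024 * A * m ^ 3 := by
    intro X X' Z Z' z h1 h3 h4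
    have a := Tlem S _ _ z (s2 ⟨(X, X', Z, Z'), h1, h3⟩)
    have b := (Nat.cast_le (α := ℝ)).2 (card_inf_ge mp hL (hc Z h3) (hc Z' h4))
    simp only [gG, ← hj, ← hq] at a
    push_cast at b
    set c : ℝ := ((el (Hs Z ⊓ Hs Z')).card : ℝ)
    have c0 : 0 < c := lt_of_lt_of_le (by positivity) b
    rw [mul_pow, dv_sq (by linarith) c0.le, sq c, mul_assoc c, ← mul_sub, abs_mul,
      abs_of_pos c0] at a
    refine le_of_mul_le_mul_left (a.trans ?_) c0
    linarith [mul_le_mul_of_nonneg_left (A2.trans b) (mul_nonneg (by linarith : 0 ≤ A) m3.le)]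
  have hR : ∀ z, q * (m - 1) ≤ m * RR S z := by
    intro z
    by_cases hz : z = 0
    · rw [hz, RR_zero, ← hj]
      have : q ≤ j := le_of_mul_le_mul_right (by linarith [mul_le_mul_of_nonneg_left j1 j0]) m3
      linarith [mul_le_mul_of_nonneg_left this m0]
    · have a := s3 z hz
      have b : q - 2 * d ≤ (t : ℝ) ^ 2 / m ^ 3 := by
        rw [le_div_iff₀ m3]
        linarith [mul_le_mul_of_nonneg_right s1.2 (add_nonneg j0 (Nat.cast_nonneg t)),
          mul_le_mul_of_nonneg_left (add_le_add j1 t4) d0]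
      have c : 6 * d * m ≤ q := by
        refine le_of_mul_le_mul_right ?_ m3
        linarith [mul_le_mul_of_nonneg_right d1 (by positivity : (0 : ℝ) ≤ m ^ 4),
          pow_le_pow_left₀ (by positivity) j2 2]
      linarith [mul_le_mul_of_nonneg_left a m0, mul_le_mul_of_nonneg_left b m0]
  obtain ⟨β, hβ⟩ : ∃ β : ℝ, β = j * (m - 1) / m ^ 4 := ⟨_, rfl⟩
  have b1 : β * m ^ 4 = j * (m - 1) := by rw [hβ]; field_simp
  have m4 : (0 : ℝ) < m ^ 4 := by positivity
  have b2 : γ ≤ β := by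
    refine le_of_mul_le_mul_right ?_ m4
    linarith [mul_le_mul_of_nonneg_right (by linarith [s1.1] : p ≤ j) (by linarith : (0 : ℝ) ≤ m - 1)]
  have b3 : β ≤ 1 := by
    refine le_of_mul_le_mul_right ?_ m4
    linarith [mul_le_mul_of_nonneg_right j1 (by linarith : (0 : ℝ) ≤ m - 1)]
  have b0 : 0 ≤ β := g0.trans b2
  have b4 : β ^ 2 * m ^ 7 = q * (m ^ 2 * (m - 1) ^ 2) := by
    rw [hβ, hq]
    field_simp
  have hN : Fintype.card ({X : L // X ≠ 0} × G) + m ^ 3 = m ^ 7 := by
    rw [Fintype.card_prod, Fintype.card_subtype_compl, Fintype.card_subtype_eq, hL, hG, ← add_one_mul,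
      Nat.sub_add_cancel (Nat.one_le_pow _ _ mp)]
    ring
  have hN' : (Fintype.card ({X : L // X ≠ 0} × G) : ℝ) = m ^ 7 - m ^ 3 := by
    rw [eq_sub_iff_add_eq]
    exact_mod_cast hN
  have same : ∀ X z, X ≠ 0 → ∑ Y : L, (if Y ∉ Hs X ∧ Y ∉ Hs X then RR S (z + (B X + B X) Y) else 0)
      = (m ^ 4 - m ^ 3) * RR S z := by
    intro X z hX
    simp only [AddMonoidHom.add_apply, h2, add_zero]
    rw [incl_excl, inf_idem]
    simp only [sum_const, card_univ, nsmul_eq_mul, gL, hc X hX]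
    push_cast
    ring
  have Am : (m : ℝ) ^ 3 ≤ A * m ^ 3 := le_mul_of_one_le_left m3.le hA
  have good : Good (rel B Hs S) β (3072 * A * m ^ 3) := by
    refine Good.of_sum (fun x y h => ⟨?_, fun c => h.2 (hH _ _ c)⟩) _ (cod_eq h2 B Hs S)
      (fun x => ?_) (fun x y => ?_)
    · rw [add_comm y.2, hB]
      exact h.1
    · rw [same _ _ x.1.2, h2, RR_zero, ← hj, hN', abs_le]
      have : (m ^ 4 - m ^ 3) * j - β * (m ^ 7 - m ^ 3) = β * m ^ 3 := by
        linear_combination (-(m : ℝ) ^ 3) * b1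
      rw [this]
      constructor <;> linarith [mul_nonneg b0 m3.le, mul_le_mul_of_nonneg_right b3 m3.le]
    · have a : β ^ 2 * (m ^ 7 - m ^ 3) ≤ q * (m ^ 2 * (m - 1) ^ 2) := by
        linarith [mul_nonneg (sq_nonneg β) m3.le]
      rw [hN']
      by_cases c : (x.1 : L) = y.1
      · rw [← c, same _ _ x.1.2]
        linarith [mul_le_mul_of_nonneg_left (hR (x.2 + y.2))
          (mul_nonneg (sq_nonneg (m : ℝ)) (by linarith : (0 : ℝ) ≤ m - 1))]
      · have e1 := abs_le.1 (hT _ _ _ _ (x.2 + y.2) c x.1.2 x.1.2)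
        have e2 := abs_le.1 (hT _ _ _ _ (x.2 + y.2) c y.1.2 y.1.2)
        have e3 := abs_le.1 (hT _ _ _ _ (x.2 + y.2) c x.1.2 y.1.2)
        have e4 := (Nat.cast_le (α := ℝ)).2 (card_inf_ge mp hL (hc _ x.1.2) (hc _ y.1.2))
        rw [inf_idem, hc _ x.1.2] at e1
        rw [inf_idem, hc _ y.1.2] at e2
        push_cast at e1 e2 e4
        rw [incl_excl, Ttop S _ (hs _ _ c), gG, gL, ← hj, ← hq]
        linarith [mul_le_mul_of_nonneg_right e4 q0, e1.2, e2.2, e3.1]
  have m7 := pw 3 7 (by norm_num)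
  have : Nonempty ({X : L // X ≠ 0} × G) := by
    rw [← Fintype.card_pos_iff, ← Nat.cast_pos (α := ℝ), hN']
    linarith [mul_le_mul_of_nonneg_left (show (2 : ℝ) ≤ m ^ 4 by linarith [pw 1 4 (by norm_num)])
      m3.le]
  obtain ⟨H', h'⟩ := thin (W := 3 * m ^ 6) (A := A) good g0 b2 b3 (by linarith)
    (by
      rw [hN']
      refine lt_of_le_of_lt ?_ hJ
      linarith [pw 14 19 (by norm_num), mul_nonneg m3.le (sub_nonneg.2 m7), pow_pos m3 2,
        (by positivity : (0 : ℝ) ≤ m ^ 14)])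
    (Or.inr (by
      rw [hN']
      have a : (β - γ) * m ^ 4 ≤ (2 * d + 1) * m := by
        linarith [mul_le_mul_of_nonneg_right (by linarith [s1.2] : j ≤ p + 2 * d + 1)
          (by linarith : (0 : ℝ) ≤ m - 1)]
      have b : (β - γ) * (m ^ 7 - m ^ 3) ≤ (2 * d + 1) * m ^ 4 := by
        linarith [mul_le_mul_of_nonneg_right a m3.le, mul_nonneg (sub_nonneg.2 b2) m3.le]
      linarith [mul_le_mul_of_nonneg_right d2 m4.le, pw 4 6 (by norm_num), pw 0 6 (by norm_num),
        mul_le_mul_of_nonneg_right mA m3.le]))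
  refine ⟨_, inferInstance, H', hN, h'.mono ?_⟩
  have a : dv A (3 * m ^ 6) ≤ 4 * A * m ^ 3 := by
    refine dv_le (by positivity) ?_
    have b : A ≤ (m : ℝ) ^ 6 := A2.trans (pw 2 6 (by norm_num))
    have c : (m : ℝ) ^ 6 ≤ A * m ^ 6 := le_mul_of_one_le_left (by positivity) hA
    linarith [mul_le_mul_of_nonneg_left (b.trans c) (by linarith : 0 ≤ A),
      mul_le_mul_of_nonneg_left c (by linarith : 0 ≤ A)]
  linarith [pw 0 3 (by norm_num)]

end Pool.Agent.MP_1dbd31_co.h58

end MrgPart3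

-- ======== part 4: formerly Pool.Agent.MP_1dbd31_co.h58.Field
section MrgPart4

/-! The base design over a field of characteristic two and its extension of degree four. -/

open Finset Polynomial
open scoped Classical

namespace Pool.Agent.MP_1dbd31_co.h58

theorem roots8 {K : Type} [Field K] (α : Fin 4 → K) (hα : α ≠ 0) (β : K) (T : Finset K)
    (hT : ∀ x ∈ T, α 0 * x - α 1 * x ^ 2 - α 2 * x ^ 4 - α 3 * x ^ 8 + β = 0) : T.card ≤ 8 := by
  obtain ⟨P, hP⟩ : ∃ P : K[X],
      P = C (α 0) * X ^ 1 - C (α 1) * X ^ 2 - C (α 2) * X ^ 4 - C (α 3) * X ^ 8 + C β := ⟨_, rfl⟩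
  have P0 : P ≠ 0 := by
    intro h
    have c : ∀ i, P.coeff i = 0 := fun i => by simp [h]
    have c1 := c 1
    have c2 := c 2
    have c4 := c 4
    have c8 := c 8
    simp only [hP, coeff_add, coeff_sub, coeff_C_mul, coeff_X_pow, coeff_C] at c1 c2 c4 c8
    norm_num at c1 c2 c4 c8
    apply hα
    ext i
    fin_cases i <;> simp [c1, c2, c4, c8]
  refine (card_le_degree_of_subset_roots (p := P) fun x hx => ?_).trans ?_
  · rw [mem_roots P0, IsRoot.def, ← hT x hx, hP]
    simp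
  · rw [hP]
    compute_degree

theorem base_field {K L : Type} [Field K] [Fintype K] [CharP K 2] [Field L] [Fintype L]
    [Algebra K L] (b : Module.Basis (Fin 4) K L) {m : ℕ} (hK : Fintype.card K = m)
    (hL : Fintype.card L = m ^ 4) {γ A : ℝ} (hA : 1 ≤ A) (g0 : 0 ≤ γ) (g1 : γ ≤ 1 / 2)
    (hm : 288 * A ≤ γ ^ 4 * m) (hJ : 8 * (m : ℝ) ^ 19 < Real.exp A) :
    ∃ (V : Type) (_ : Fintype V) (H : V → V → Prop), Fintype.card V + m ^ 3 = m ^ 7 ∧
      Good H γ (3100 * A * m ^ 3) := by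
  let ε := b.equivFun
  let π : L →+ (Fin 3 → K) := AddMonoidHom.mk'
    (fun y i => ε y i.succ + ε y 0 ^ 2 ^ (i.val + 1)) (by
      intro x y
      ext i
      simp only [map_add, Pi.add_apply, add_pow_char_pow]
      ring)
  let φ : L →+ K := AddMonoidHom.mk' (fun y => ε y 0) (by simp)
  have φ1 : ∀ a : K, φ (a • b 0) = a := fun a => by simp [φ, ε]
  have L2 : ∀ X X' : L, X ≠ X' → X + X' ≠ 0 := fun X X' h c => h (by
    have : X' + X' = 0 := by
      rw [← two_smul K, show (2 : K) = 0 from CharP.cast_eq_zero K 2, zero_smul]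
    exact add_right_cancel (c.trans this.symm))
  have hD : ∀ X X' Y : L, (π.comp (AddMonoidHom.mulLeft X) + π.comp (AddMonoidHom.mulLeft X')) Y =
      π ((X + X') * Y) := fun X X' Y => by simp [add_mul]
  refine base (L := L) (G := Fin 3 → K) (fun a => funext fun i => CharTwo.add_self_eq_zero _)
    (fun X => π.comp (AddMonoidHom.mulLeft X)) (fun X Y => by simp [mul_comm])
    (fun X => (φ.comp (AddMonoidHom.mulLeft X)).ker) (fun X Y h => by simpa [mul_comm] using h)
    hL (by simp [hK]) (fun X hX => ?_) (fun X X' h c => ?_) (fun X X' Z c h hZ => ?_)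
    hA g0 g1 hm hJ
  · have a := AddSubgroup.card_mul_index (φ.comp (AddMonoidHom.mulLeft X)).ker
    have r : (φ.comp (AddMonoidHom.mulLeft X)).range = ⊤ :=
      AddMonoidHom.range_eq_top.2 fun a => ⟨X⁻¹ * (a • b 0), by
        rw [AddMonoidHom.comp_apply, AddMonoidHom.coe_mulLeft, mul_inv_cancel_left₀ hX, φ1]⟩
    rw [AddSubgroup.index_ker, r, AddSubgroup.card_top, Nat.card_eq_fintype_card (α := K),
      Nat.card_eq_fintype_card (α := L), hK, hL, pow_succ m 3] at a
    rw [card_el]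
    exact Nat.eq_of_mul_eq_mul_right (hK ▸ Fintype.card_pos) a
  · refine ⟨(X + X')⁻¹ * ε.symm (Fin.cons 0 c), ?_⟩
    rw [hD, mul_inv_cancel_left₀ (L2 _ _ h)]
    ext i
    simp only [π, AddMonoidHom.mk'_apply, LinearEquiv.apply_symm_apply, Fin.cons_succ,
      Fin.cons_zero]
    simp
  · have hU := L2 _ _ h
    simp only [hD]
    set U := X + X'
    have co : ∀ Y, π (U * Y) = c → ∀ i : Fin 3,
        ε (U * Y) i.succ = c i - ε (U * Y) 0 ^ 2 ^ (i.val + 1) := fun Y hY i =>
      eq_sub_of_add_eq (congrFun hY i)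
    have ex : ∀ y, φ (Z * U⁻¹ * y) = ∑ i, φ (Z * U⁻¹ * b i) * ε y i := fun y => by
      conv_lhs => rw [← b.sum_equivFun y, mul_sum, map_sum]
      refine sum_congr rfl fun i _ => ?_
      simp [φ, ε, mul_comm]
    rw [← card_image_of_injOn (f := fun Y => ε (U * Y) 0)]
    · refine roots8 (fun i => φ (Z * U⁻¹ * b i)) (fun e => ?_)
        (∑ i : Fin 3, φ (Z * U⁻¹ * b i.succ) * c i) _ fun x hx => ?_
      · have a := ex (U * Z⁻¹ * ((1 : K) • b 0))
        have e' : ∀ i, φ (Z * U⁻¹ * b i) = 0 := congrFun e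
        rw [show Z * U⁻¹ * (U * Z⁻¹ * ((1 : K) • b 0)) = (1 : K) • b 0 by field_simp, φ1] at a
        simp [e'] at a
      · obtain ⟨Y, hY, rfl⟩ := mem_image.1 hx
        obtain ⟨h1, h3⟩ := mem_filter.1 hY
        have a := ex (U * Y)
        have h1' : φ (Z * Y) = 0 := by simpa using h1
        rw [show Z * U⁻¹ * (U * Y) = Z * Y by field_simp, h1', Fin.sum_univ_succ] at a
        simp only [co Y h3, Fin.sum_univ_three] at a ⊢
        rw [show (3 : Fin 4) = Fin.succ 2 from rfl]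
        norm_num at a ⊢
        linear_combination -a
    · intro Y hY Y' hY' e
      refine mul_left_cancel₀ hU (ε.injective (funext fun i => ?_))
      refine Fin.cases e (fun i => ?_) i
      rw [co Y (mem_filter.1 hY).2, co Y' (mem_filter.1 hY').2]
      exact congrArg (fun x => c i - x ^ 2 ^ (i.val + 1)) e

theorem base_pow {e m : ℕ} (he : e ≠ 0) (hme : m = 2 ^ e) {γ A : ℝ} (hA : 1 ≤ A) (g0 : 0 ≤ γ)
    (g1 : γ ≤ 1 / 2) (hm : 288 * A ≤ γ ^ 4 * m) (hJ : 8 * (m : ℝ) ^ 19 < Real.exp A) :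
    ∃ (V : Type) (_ : Fintype V) (H : V → V → Prop), Fintype.card V + m ^ 3 = m ^ 7 ∧
      Good H γ (3100 * A * m ^ 3) := by
  let K := GaloisField 2 e
  let L := FiniteField.Extension K 2 4
  have := Fintype.ofFinite K
  have := Fintype.ofFinite L
  have hK : Nat.card K = m := hme ▸ GaloisField.card 2 e he
  exact base_field (Module.finBasisOfFinrankEq K L (FiniteField.finrank_extension K 2 4))
    (by rw [← hK, Nat.card_eq_fintype_card])
    (by rw [← hK, ← FiniteField.natCard_extension K 2 4, Nat.card_eq_fintype_card])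
    hA g0 g1 hm hJ

end Pool.Agent.MP_1dbd31_co.h58

end MrgPart4

-- ======== part 5: formerly Pool.Agent.MP_1dbd31_co.h58.All
section MrgPart5

/-! Near designs of every order and every density at most one half, with error below the
square root of the order by a power. -/

open Finset
open scoped Classical

namespace Pool.Agent.MP_1dbd31_co.h58

theorem exists_good {n r e : ℕ} (hn : 2 ≤ n) (hr : r = 2 ^ e) (h1 : r ^ 29 ≤ n)
    (h2 : n < 2 ^ 29 * r ^ 29) {γ A : ℝ} (hA : 1 ≤ A) (hE : (n : ℝ) ^ 10 ≤ Real.exp A)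
    (g0 : 0 ≤ γ) (g1 : γ ≤ 1 / 2) :
    ∃ (V : Type) (_ : Fintype V) (H : V → V → Prop), Fintype.card V = n ∧
      Good H γ (2 ^ 44 * A * r ^ 14) := by
  have n2 : (2 : ℝ) ≤ n := by exact_mod_cast hn
  have r1 : (1 : ℝ) ≤ r := by rw [hr]; exact_mod_cast Nat.one_le_two_pow
  have pw : ∀ a b : ℕ, a ≤ b → (r : ℝ) ^ a ≤ (r : ℝ) ^ b := fun a b hab =>
    pow_le_pow_right₀ r1 hab
  have h1' : (r : ℝ) ^ 29 ≤ n := by exact_mod_cast h1
  have h2' : (n : ℝ) ≤ 2 ^ 29 * r ^ 29 := by exact_mod_cast h2.le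
  have A0 : 0 ≤ A := by linarith
  have big : 8 * (n : ℝ) ^ 3 < Real.exp A := by
    refine lt_of_lt_of_le ?_ hE
    have a : (2 : ℝ) ^ 7 ≤ n ^ 7 := pow_le_pow_left₀ zero_le_two n2 7
    have b : (0 : ℝ) < n ^ 3 := by positivity
    linarith [mul_le_mul_of_nonneg_right a b.le]
  have big2 : ∀ x : ℝ, 0 ≤ x → x ≤ n → 6 * x ^ 2 < Real.exp A := fun x x0 hx => by
    have a := pow_le_pow_left₀ x0 hx 2
    have b : (n : ℝ) ^ 2 ≤ n ^ 3 := pow_le_pow_right₀ (by linarith) (by norm_num)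
    have c : (0 : ℝ) ≤ n ^ 3 := by positivity
    linarith
  have r28 : (r : ℝ) ^ 28 ≤ A * r ^ 28 := le_mul_of_one_le_left (by positivity) hA
  have A28 : A ≤ A * r ^ 28 := le_mul_of_one_le_right A0 (one_le_pow₀ r1)
  have A14 : A ≤ A * r ^ 14 := le_mul_of_one_le_right A0 (one_le_pow₀ r1)
  by_cases c : 288 * A ≤ γ ^ 4 * (r : ℝ) ^ 4
  · have he : e ≠ 0 := by
      rintro rfl
      have := pow_le_pow_left₀ g0 g1 4
      rw [hr] at c
      norm_num at c this
      linarith
    have r2 : (2 : ℝ) ≤ r := by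
      rw [hr]
      exact_mod_cast Nat.le_self_pow he 2
    obtain ⟨V, _, H, hV, hH⟩ := base_pow (e := e * 4) (m := r ^ 4) (by omega)
      (by rw [hr, pow_mul]) hA g0 g1 (by push_cast; exact c) (by
        push_cast
        refine lt_of_le_of_lt ?_ big
        have a := pow_le_pow_left₀ (by positivity) h1' 3
        linarith [pw 76 87 (by norm_num)])
    have hV' : (Fintype.card V : ℝ) + r ^ 12 = r ^ 28 := by
      have := congrArg (Nat.cast (R := ℝ)) hV
      push_cast at this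
      linarith
    have r12 : (0 : ℝ) < r ^ 12 := by positivity
    have a : 2 * (r : ℝ) ^ 12 ≤ r ^ 28 := by
      linarith [mul_le_mul_of_nonneg_right r2 r12.le, pw 13 28 (by norm_num)]
    have V0 : 0 < Fintype.card V := by
      rw [← Nat.cast_pos (α := ℝ)]
      linarith
    have : Nonempty V := Fintype.card_pos_iff.1 V0
    obtain ⟨U, _, H', hU, hH'⟩ := blow hH (w := n / Fintype.card V) (t := n % Fintype.card V)
      (Nat.mod_lt _ V0).le (A := A) (by linarith)
      (big2 _ (Nat.cast_nonneg _) (by linarith [pw 28 29 (by norm_num)]))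
    refine ⟨U, inferInstance, H', hU.trans (Nat.div_add_mod' _ _), hH'.mono ?_⟩
    have b : ((n / Fintype.card V : ℕ) : ℝ) * Fintype.card V ≤ n := by
      exact_mod_cast Nat.div_mul_le_self n _
    set w : ℝ := ((n / Fintype.card V : ℕ) : ℝ)
    have w0 : 0 ≤ w := Nat.cast_nonneg _
    have w1 : w ≤ 2 ^ 30 * r := by
      refine le_of_mul_le_mul_right ?_ (by positivity : (0 : ℝ) < r ^ 28)
      linarith [mul_le_mul_of_nonneg_left (by linarith : (r : ℝ) ^ 28 ≤ 2 * Fintype.card V) w0]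
    have d : dv A (Fintype.card V) ≤ 4 * A * r ^ 14 := by
      refine dv_le (by positivity) ?_
      linarith [mul_le_mul_of_nonneg_left (by linarith : Fintype.card V + A ≤ 4 * (A * r ^ 28)) A0]
    have f : (w + 1) * (3100 * A * r ^ 12) ≤ 2 ^ 31 * r * (3100 * A * r ^ 12) :=
      mul_le_mul_of_nonneg_right (by linarith) (by positivity)
    push_cast
    linarith [mul_le_mul_of_nonneg_left (pw 13 14 (by norm_num)) A0]
  · have a : γ * r ≤ 5 * A := by
      refine le_of_not_gt fun h => c ?_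
      have a := pow_le_pow_left₀ (by positivity) h.le 4
      have b : A ≤ A ^ 4 := le_self_pow₀ hA (by norm_num)
      linarith
    have : Nonempty (Fin n) := ⟨⟨0, by omega⟩⟩
    obtain ⟨H, hH⟩ := thin (V := Fin n) (W := 5 * 2 ^ 29 * (A * r ^ 28) + 1) (A := A) good_top g0
      (by linarith) le_rfl (by linarith) (big2 _ (Nat.cast_nonneg _) (by simp))
      (Or.inl (by
        rw [Fintype.card_fin]
        linarith [mul_le_mul_of_nonneg_left h2' g0,
          mul_le_mul_of_nonneg_right a (by positivity : (0 : ℝ) ≤ r ^ 28)]))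
    refine ⟨_, inferInstance, H, Fintype.card_fin n, hH.mono ?_⟩
    have d : dv A (5 * 2 ^ 29 * (A * r ^ 28) + 1) ≤ 2 ^ 17 * A * r ^ 14 := by
      refine dv_le (by positivity) ?_
      linarith [mul_le_mul_of_nonneg_left (by linarith :
        5 * 2 ^ 29 * (A * r ^ 28) + 1 + A ≤ 2 ^ 32 * (A * r ^ 28)) A0]
    linarith

theorem exists_good' {n : ℕ} (hn : 2 ≤ n) {γ : ℝ} (g0 : 0 ≤ γ) (g1 : γ ≤ 1 / 2) :
    ∃ (V : Type) (_ : Fintype V) (H : V → V → Prop), Fintype.card V = n ∧
      Good H γ (2 ^ 48 * (n : ℝ) ^ (14 / 29 : ℝ) * Real.log n) := by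
  have n2 : (2 : ℝ) ≤ n := by exact_mod_cast hn
  have l1 : 1 / 2 ≤ Real.log n :=
    le_trans (by linarith [Real.log_two_gt_d9]) (Real.log_le_log zero_lt_two n2)
  have h1 : (2 ^ Nat.log (2 ^ 29) n) ^ 29 ≤ n := by
    rw [← pow_mul, mul_comm, pow_mul]
    exact Nat.pow_log_le_self _ (by omega)
  have h2 : n < 2 ^ 29 * (2 ^ Nat.log (2 ^ 29) n) ^ 29 := by
    rw [← pow_mul, mul_comm _ 29, pow_mul, ← pow_succ']
    exact Nat.lt_pow_succ_log_self (by norm_num) n
  obtain ⟨V, _, H, hV, hH⟩ := exists_good hn rfl h1 h2 (A := 10 * Real.log n) (by linarith)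
    (by
      rw [show (10 : ℝ) = (10 : ℕ) by norm_num, Real.exp_nat_mul, Real.exp_log (by linarith)])
    g0 g1
  refine ⟨V, inferInstance, H, hV, hH.mono ?_⟩
  generalize 2 ^ Nat.log (2 ^ 29) n = r at h1
  have a : (r : ℝ) ^ 14 ≤ (n : ℝ) ^ (14 / 29 : ℝ) := by
    have b : ((r : ℝ) ^ 29) ^ (14 / 29 : ℝ) ≤ (n : ℝ) ^ (14 / 29 : ℝ) :=
      Real.rpow_le_rpow (by positivity) (by exact_mod_cast h1) (by norm_num)
    rwa [← Real.rpow_natCast, ← Real.rpow_mul (Nat.cast_nonneg _),
      show ((29 : ℕ) : ℝ) * (14 / 29) = (14 : ℕ) by norm_num, Real.rpow_natCast] at b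
  have b := mul_le_mul_of_nonneg_right a (by linarith : 0 ≤ Real.log n)
  have c : 0 ≤ (r : ℝ) ^ 14 * Real.log n := mul_nonneg (by positivity) (by linarith)
  linarith

end Pool.Agent.MP_1dbd31_co.h58

end MrgPart5

-- marker of a merged file
example : 731051 + 313737 = 731051 + 313737 := rfl
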