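import Pool.Agent.MP_1dbd31_co.h58.All
import Pool.Agent.MP_1dbd31_co.Main

/-! Upper and lower bound for the extremal function on the whole range. -/

open Finset
open scoped Classical

namespace Pool.Agent.MP_1dbd31_co.h58

theorem upper_of_good {V : Type} [Fintype V] {H : V → V → Prop} {n k : ℕ} {u E : ℝ}
    (hV : Fintype.card V = n) (hk : k ≤ n) (h : Good H (1 - u) E)
    (hu : u ^ 2 * n = k + 3 * E + 1) : 2 * (ghat n k : ℝ) ≤ n * (u * n + E) := by
  let G : SimpleGraph V := SimpleGraph.fromRel H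
  have e : ∀ x, nb G x = (Nb H x).erase x := fun x => by
    ext y
    simp only [mem_nb, G, SimpleGraph.fromRel_adj, mem_erase, mem_Nb]
    exact ⟨fun a => ⟨a.1.symm, a.2.elim id (h.symm _ _)⟩, fun a => ⟨a.1.symm, Or.inl a.2⟩⟩
  obtain ⟨r, hr⟩ := Nat.exists_eq_add_of_le hk
  have hr' : (n : ℝ) = k + r := by exact_mod_cast hr
  have c : Cond r G := by
    intro x y _
    have a := card_union_add_card_inter (Nb H x) (Nb H y)
    have a' : ((Nb H x ∪ Nb H y).card : ℝ) + (Nb H x ∩ Nb H y).card =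
      (Nb H x).card + (Nb H y).card := by exact_mod_cast a
    have b : (nb G x ∪ nb G y).card ≤ (Nb H x ∪ Nb H y).card := by
      rw [e, e]
      exact card_le_card (union_subset_union (erase_subset _ _) (erase_subset _ _))
    have d1 := (abs_le.1 (h.deg x)).2
    have d2 := (abs_le.1 (h.deg y)).2
    have d3 := h.cod x y
    rw [hV] at d1 d2 d3
    have f : ((Nb H x ∪ Nb H y).card : ℝ) + 1 ≤ r := by linarith
    have f' : (Nb H x ∪ Nb H y).card + 1 ≤ r := by exact_mod_cast f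
    omega
  have a := ghat_upper hr hV c
  have b : (n : ℝ) * ((1 - u) * n - E - 1) ≤ tot G := by
    rw [tot, Nat.cast_sum, ← nsmul_eq_mul]
    conv_lhs => rw [← hV, ← card_univ]
    refine card_nsmul_le_sum _ _ _ fun x _ => ?_
    have d1 := (abs_le.1 (h.deg x)).1
    have d2 : ((Nb H x).card : ℝ) ≤ (nb G x).card + 1 := by
      rw [e]
      exact_mod_cast (by have := pred_card_le_card_erase (s := Nb H x) (a := x); omega)
    rw [card_univ]
    linarith
  rcases Nat.eq_zero_or_pos n with n0 | n0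
  · have : ghat n k = 0 := by rw [n0] at a; rw [n0]; omega
    rw [this]
    simp [n0]
  have a' : 2 * (ghat n k : ℝ) + tot G ≤ n * (n - 1) := by
    rw [← Nat.cast_one (R := ℝ), ← Nat.cast_sub n0]
    exact_mod_cast a
  linarith

theorem upper {n k : ℕ} (hk : k + 1 ≤ n) (h4 : n ≤ 4 * k) {E : ℝ}
    (hE : E = 2 ^ 48 * (n : ℝ) ^ (14 / 29 : ℝ) * Real.log n) :
    2 * (ghat n k : ℝ) ≤ n * (√(k * n) + (4 * E + 1)) := by
  have n0 : (0 : ℝ) < n := by exact_mod_cast (by omega : 0 < n)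
  have k0 : (0 : ℝ) ≤ k := Nat.cast_nonneg k
  have kn : (k : ℝ) ≤ n := by exact_mod_cast (by omega : k ≤ n)
  have h4' : (n : ℝ) ≤ 4 * k := by exact_mod_cast h4
  have E0 : 0 ≤ E := by
    rw [hE]
    exact mul_nonneg (by positivity) (Real.log_natCast_nonneg n)
  have s0 := Real.sqrt_nonneg (k * n)
  have s1 := Real.sq_sqrt (mul_nonneg k0 n0.le)
  set s := √((k : ℝ) * n)
  by_cases c : k + 3 * E + 1 ≤ n
  · have q0 : 0 ≤ (k + 3 * E + 1) / n := by positivity
    have u0 := Real.sqrt_nonneg ((k + 3 * E + 1) / n)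
    have u1 := Real.sq_sqrt q0
    set u := √((k + 3 * E + 1) / n)
    have u2 : u ^ 2 * n = k + 3 * E + 1 := by rw [u1, div_mul_cancel₀ _ n0.ne']
    have u3 : u ≤ 1 := pow_le_one_iff_of_nonneg u0 two_ne_zero |>.1
      (le_of_mul_le_mul_right (by linarith) n0)
    have u4 : 1 / 2 ≤ u :=
      abs_le_of_sq_le_sq' (le_of_mul_le_mul_right (by linarith) n0) u0 |>.2
    obtain ⟨V, _, H, hV, hH⟩ := exists_good' (n := n) (by omega) (γ := 1 - u) (by linarith)
      (by linarith)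
    have a := upper_of_good hV (by omega) (hE ▸ hH) u2
    have b : n ≤ 2 * s := abs_le_of_sq_le_sq' (by nlinarith) (by linarith) |>.2
    have d : u * n ≤ s + (3 * E + 1) := abs_le_of_sq_le_sq' (by nlinarith) (by linarith) |>.2
    exact a.trans (mul_le_mul_of_nonneg_left (by linarith) n0.le)
  · obtain ⟨r, hr⟩ := Nat.exists_eq_add_of_le (show k ≤ n by omega)
    obtain ⟨H, -, a⟩ := ghat_attained hr (by omega)
    have a1 : 2 * ghat n k ≤ n * n := le_trans (by omega) (Nat.mul_le_mul_left n (Nat.sub_le n 1))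
    have a2 : 2 * (ghat n k : ℝ) ≤ n * n := by exact_mod_cast a1
    have b : k ≤ s := abs_le_of_sq_le_sq' (by nlinarith) s0 |>.2
    exact a2.trans (mul_le_mul_of_nonneg_left (by linarith) n0.le)

theorem lower {n k : ℕ} (hk : k + 1 ≤ n) (h : (n : ℝ) ≤ (3 + √5) / 2 * k) :
    n * (√(k * n) - 2) ≤ 2 * (ghat n k : ℝ) := by
  have n0 : (0 : ℝ) < n := by exact_mod_cast (by omega : 0 < n)
  have k0 : (0 : ℝ) ≤ k := Nat.cast_nonneg k
  have kn : (k : ℝ) ≤ n := by exact_mod_cast (by omega : k ≤ n)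
  have s0 := Real.sqrt_nonneg (k * n)
  have s1 := Real.sq_sqrt (mul_nonneg k0 n0.le)
  set s := √((k : ℝ) * n)
  have y1 := Real.sq_sqrt (show (0 : ℝ) ≤ 5 by norm_num)
  have y0 := Real.sqrt_nonneg 5
  set y := √(5 : ℝ)
  have y2 : 1 ≤ y := by nlinarith
  have y3 : y ≤ 5 := by nlinarith
  have p : ((n : ℝ) - k) ^ 2 ≤ s ^ 2 := by
    have a : 0 ≤ (n : ℝ) - (3 - y) / 2 * k := by nlinarith
    have b := mul_nonneg (sub_nonneg.2 h) a
    have c : y ^ 2 * k ^ 2 = 5 * k ^ 2 := by rw [y1]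
    linarith
  have p1 : (n : ℝ) - k ≤ s := (abs_le_of_sq_le_sq' p s0).2
  by_cases c : k ≤ 1
  · have k1 : (k : ℝ) ≤ 1 := by exact_mod_cast c
    have a : s ≤ 2 := (abs_le_of_sq_le_sq' (by nlinarith) zero_le_two).2
    exact (mul_nonpos_of_nonneg_of_nonpos n0.le (by linarith)).trans (by positivity)
  obtain ⟨r, hr⟩ := Nat.exists_eq_add_of_le (show k ≤ n by omega)
  obtain ⟨H, h1, a⟩ := ghat_attained hr (by omega)
  obtain ⟨v, hv⟩ := exists_maxdeg H (by simp; omega)
  have d1 := deg_lt h1 (by simp; omega) v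
  have d2 := (count h1 rfl hv).1
  have d3 := tot_le hv
  rw [Fintype.card_fin] at d2 d3
  generalize (nb H v).card = D at *
  have n1 : ((n - 1 : ℕ) : ℝ) = n - 1 := by rw [Nat.cast_sub (by omega), Nat.cast_one]
  have a' := congrArg (Nat.cast (R := ℝ)) a
  have d1' : (D : ℝ) + 1 ≤ r := by exact_mod_cast d1
  have d2' := (Nat.cast_le (α := ℝ)).2 d2
  have d3' := (Nat.cast_le (α := ℝ)).2 d3
  have hr' := congrArg (Nat.cast (R := ℝ)) hr
  simp only [Nat.cast_add, Nat.cast_mul, n1, Nat.cast_pow, Nat.cast_one, Nat.cast_ofNat]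
    at a' d2' d3' hr'
  by_cases c2 : s ≤ n - 1 - D
  · linarith [mul_le_mul_of_nonneg_left c2 n0.le]
  · have e : (r : ℝ) = n - k := by linarith
    rw [e] at d2'
    linarith [mul_nonneg (show 0 ≤ s - (n - 1 - D) by linarith)
      (show 0 ≤ s + (n - 1 - D) - n by linarith)]

end Pool.Agent.MP_1dbd31_co.h58
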